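import Pool.Agent.K4H97.CE.Thr3

set_option autoImplicit false

/-!
# The threshold for descent in logarithmic time

Almost all `n` satisfy `T^k(n) ≤ n^κ` for some `k ≤ c log n`, with a power saving for the exceptions (for
every `κ > 0` and `c > 2 / log (4/3)`). Let `β(κ, c)` be the exponent of the set of the exceptions, and let
`Λ ≤ ∞` be the best constant in a logarithmic bound for the time needed to reach a bounded set. We show that
`1 - β(κ, c)` is `κ + 1 / Λ`, up to factors depending only on `c`, and that `1 - β(κ, c) ≤ κ + c / Λ`. So the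
exponent `1 - κ` is a threshold: if all but `x^(1 - s)` integers up to `x` descend to `n^κ`, with one `s > κ`,
then all integers reach a bounded set in logarithmic time; and Q1 holds if and only if this is so and there is
no nontrivial cycle.
-/

namespace Pool.Agent.Results.MP_a1568a_nt.DescentThreshold

open Filter Topology
open scoped ENNReal

/-- The `3x+1` function. -/
def T (n : ℕ) : ℕ := if n % 2 = 0 then n / 2 else (3 * n + 1) / 2

/-- `n` descends to `n^κ` in time `c log n`: `T^(k)(n) ≤ n^κ` for some `k ≤ c log n`. -/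
def Descends (κ c : ℝ) (n : ℕ) : Prop :=
  ∃ k : ℕ, (k : ℝ) ≤ c * Real.log n ∧ ((T^[k] n : ℕ) : ℝ) ≤ (n : ℝ) ^ κ

/-- The number of the positive integers `n ≤ x` which do not descend to `n^κ` in time `c log n`. -/
noncomputable def exceptions (κ c x : ℝ) : ℕ := {n : ℕ | 1 ≤ n ∧ (n : ℝ) ≤ x ∧ ¬ Descends κ c n}.ncard

/-- `β(κ, c)`, the exponent of the exceptional set: the upper limit of `log (exceptions κ c x) / log x` as
`x → ∞`. -/
noncomputable def beta (κ c : ℝ) : ℝ := limsup (fun x : ℝ => Real.log (exceptions κ c x) / Real.log x) atTop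

/-- There is `K` such that for every `n ≥ 1` some `T^(k)(n)` with `k ≤ l log n` is at most `K`. -/
def UniformBound (l : ℝ) : Prop :=
  ∃ K : ℕ, ∀ n : ℕ, 1 ≤ n → ∃ k : ℕ, (k : ℝ) ≤ l * Real.log n ∧ T^[k] n ≤ K

/-- `Λ`, the infimum of the `l` with `UniformBound l`, and `∞` if there are none. -/
noncomputable def Lambda : ℝ≥0∞ := sInf {t : ℝ≥0∞ | ∃ l : ℝ, t = ENNReal.ofReal l ∧ UniformBound l}

/-- The only cycle of `T` in the positive integers is `1, 2`. -/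
def NoOtherCycle : Prop := ∀ n p : ℕ, 1 ≤ n → 1 ≤ p → T^[p] n = n → n = 1 ∨ n = 2

theorem beta_eq (κ c : ℝ) : beta κ c = Pool.Agent.K4H97.CE.expo (Pool.Agent.K4H97.CE.und κ c) := rfl

theorem Lambda_eq : Lambda = Pool.Agent.K4H97.CE.Lam := rfl

/-- THE THRESHOLD FOR DESCENT IN LOGARITHMIC TIME. Let `β(κ, c)` be the exponent of the set of the `n` with
`T^(k)(n) > n^κ` for all `k ≤ c log n`, and let `Λ ≤ ∞` be the infimum of the `l` such that for some `K`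
every `n` has an iterate `T^(k)(n) ≤ K` with `k ≤ l log n`.

(1) `1 - β(κ, c) ≤ κ + c / Λ` for all `κ ≥ 0` and `c > 0` (with `1 / ∞ = 0`).

(2) For every `c > 2 / log (4/3)` there is `a > 0` with `a (κ + 1 / Λ) ≤ 1 - β(κ, c)` for all
`0 < κ ≤ 1`.

(3) Equivalent are: `Λ < ∞`; `β(κ, c) < 1 - κ` for some `κ ≥ 0` and `c > 0`; for every
`c > 2 / log (4/3)` there is `0 < κ < 1` with `β(κ, c) < 1 - κ`.

(4) Q1 holds, i.e. for some `c` every `n ≥ 2` reaches `1` after at most `c log n` steps, if and only if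
`Λ < ∞` and there is no cycle other than `1, 2`; that is, if and only if there is no other cycle and
`β(κ, c) < 1 - κ` for some `κ ≥ 0` and `c > 0`. -/
theorem result :
    (∀ κ c : ℝ, 0 ≤ κ → 0 < c → 1 - beta κ c ≤ κ + c * (Lambda⁻¹).toReal) ∧
    (∀ c : ℝ, 2 / Real.log (4 / 3) < c → ∃ a : ℝ, 0 < a ∧ ∀ κ : ℝ, 0 < κ → κ ≤ 1 →
      a * (κ + (Lambda⁻¹).toReal) ≤ 1 - beta κ c) ∧
    [Lambda < ⊤,
      ∃ κ c : ℝ, 0 ≤ κ ∧ 0 < c ∧ beta κ c < 1 - κ,
      ∀ c : ℝ, 2 / Real.log (4 / 3) < c → ∃ κ : ℝ, 0 < κ ∧ κ < 1 ∧ beta κ c < 1 - κ].TFAE ∧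
    ((∃ c : ℝ, ∀ n : ℕ, 2 ≤ n → ∃ k : ℕ, (k : ℝ) ≤ c * Real.log n ∧ T^[k] n = 1) ↔
      NoOtherCycle ∧ Lambda < ⊤) ∧
    ((∃ c : ℝ, ∀ n : ℕ, 2 ≤ n → ∃ k : ℕ, (k : ℝ) ≤ c * Real.log n ∧ T^[k] n = 1) ↔
      NoOtherCycle ∧ ∃ κ c : ℝ, 0 ≤ κ ∧ 0 < c ∧ beta κ c < 1 - κ) := by
  have h1 : ∀ κ c : ℝ, 0 ≤ κ → 0 < c → 1 - beta κ c ≤ κ + c * (Lambda⁻¹).toReal := by
    intro κ c hκ hc
    rw [beta_eq, Lambda_eq]
    exact Pool.Agent.K4H97.CE.thr_upper hκ hc
  have h2 : ∀ c : ℝ, 2 / Real.log (4 / 3) < c → ∃ a : ℝ, 0 < a ∧ ∀ κ : ℝ, 0 < κ → κ ≤ 1 →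
      a * (κ + (Lambda⁻¹).toReal) ≤ 1 - beta κ c := by
    intro c hc
    rw [Lambda_eq]
    exact Pool.Agent.K4H97.CE.thr_lower hc
  have h43 : 0 < 2 / Real.log (4 / 3) := Pool.Agent.K4H97.CE.mu_pos
  have h13 : Lambda < ⊤ → ∀ c : ℝ, 2 / Real.log (4 / 3) < c → ∃ κ : ℝ, 0 < κ ∧ κ < 1 ∧ beta κ c < 1 - κ := by
    intro hL c hc
    obtain ⟨a, ha, h⟩ := h2 c hc
    have hi : 0 < (Lambda⁻¹).toReal := by
      apply ENNReal.toReal_pos (ENNReal.inv_ne_zero.2 hL.ne)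
      apply ENNReal.inv_ne_top.2
      intro h0
      have := Pool.Agent.K4H97.CE.one_le_Lam
      rw [← Lambda_eq, h0] at this
      exact absurd this (by norm_num)
    set i : ℝ := (Lambda⁻¹).toReal with hidef
    refine ⟨min (1 / 2) (a * i / 2), lt_min (by norm_num) (by positivity),
      lt_of_le_of_lt (min_le_left _ _) (by norm_num), ?_⟩
    have hκ0 : 0 < min (1 / 2) (a * i / 2) := lt_min (by norm_num) (by positivity)
    have h3 := h _ hκ0 ((min_le_left _ _).trans (by norm_num))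
    have h4 : min (1 / 2) (a * i / 2) ≤ a * i / 2 := min_le_right _ _
    have h5 : 0 < a * min (1 / 2) (a * i / 2) := by positivity
    have h6 : 0 < a * i := by positivity
    rw [mul_add] at h3
    linarith
  have h21 : (∃ κ c : ℝ, 0 ≤ κ ∧ 0 < c ∧ beta κ c < 1 - κ) → Lambda < ⊤ := by
    rintro ⟨κ, c, hκ, hc, hβ⟩
    by_contra hL
    rw [not_lt_top_iff] at hL
    have h3 := h1 κ c hκ hc
    rw [hL, ENNReal.inv_top, ENNReal.toReal_zero, mul_zero] at h3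
    linarith
  have h32 : (∀ c : ℝ, 2 / Real.log (4 / 3) < c → ∃ κ : ℝ, 0 < κ ∧ κ < 1 ∧ beta κ c < 1 - κ) →
      ∃ κ c : ℝ, 0 ≤ κ ∧ 0 < c ∧ beta κ c < 1 - κ := by
    intro h
    obtain ⟨κ, hκ, -, hβ⟩ := h (2 / Real.log (4 / 3) + 1) (by linarith)
    exact ⟨κ, _, hκ.le, by linarith, hβ⟩
  have hQ : (∃ c : ℝ, ∀ n : ℕ, 2 ≤ n → ∃ k : ℕ, (k : ℝ) ≤ c * Real.log n ∧ T^[k] n = 1) ↔
      NoOtherCycle ∧ Lambda < ⊤ := Pool.Agent.K4H97.CE.q1_iff
  refine ⟨h1, h2, ?_, hQ, ?_⟩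
  · tfae_have 1 → 3 := h13
    tfae_have 3 → 2 := h32
    tfae_have 2 → 1 := h21
    tfae_finish
  · rw [hQ]
    exact and_congr_right fun _ => ⟨fun h => h32 (h13 h), h21⟩

end Pool.Agent.Results.MP_a1568a_nt.DescentThreshold
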