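import Pool.Agent.K4H97.CE.Sharp
import Pool.Agent.K4H86.Fix.ExcBig

set_option autoImplicit false

/-!
# The extremal constant and the size of the exceptional set of the logarithmic bound

Let `L ≤ ∞` be the upper limit of `σ_∞(n) / log n`; the question Q1 asks whether `L < ∞`. Let `β(c)` be
the exponent of the set of the exceptions `n ≤ x` of the inequality `σ_∞(n) ≤ c log n`, and
`μ = 2 / log (4/3)`. For `μ < c < L` we show that `κ(c) / L ≤ 1 - β(c) ≤ (c - μ) / (L - μ)`, with
`κ(c) > 0` and `κ(c) ≥ c / 22` for all `c ≥ 10^6`. So the best constant is determined,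
up to bounded factors, by the number of the exceptions, and Q1 holds if and only if the number of the
exceptions up to `x` is `O(x^(1 - η))` with `η > 0`, for one `c`, or for all `c > μ`. The upper bound is the
transfer principle of the starting files; the lower bound comes from descent in logarithmic time with a
power saving.
-/

namespace Pool.Agent.Results.MP_a1568a_nt.ExceptionalExponent

open Filter Topology
open scoped ENNReal

/-- The `3x+1` function. -/
def T (n : ℕ) : ℕ := if n % 2 = 0 then n / 2 else (3 * n + 1) / 2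

open Classical in
/-- The total stopping time `σ_∞(n)`: the least `k ≥ 0` with `T^(k)(n) = 1`, and `∞` if there is
none. -/
noncomputable def sigma (n : ℕ) : ℕ∞ :=
  if h : ∃ k : ℕ, T^[k] n = 1 then ((Nat.find h : ℕ) : ℕ∞) else ⊤

/-- `L`, the upper limit of `σ_∞(n) / log n` as `n → ∞`, with `0 ≤ L ≤ ∞`. -/
noncomputable def L : ℝ≥0∞ := limsup (fun n : ℕ => (sigma n : ℝ≥0∞) / ENNReal.ofReal (Real.log n)) atTop

/-- The number of the exceptions `2 ≤ n ≤ x` of the inequality `σ_∞(n) ≤ c log n`. -/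
noncomputable def exceptions (c x : ℝ) : ℕ :=
  {n : ℕ | 2 ≤ n ∧ (n : ℝ) ≤ x ∧ ENNReal.ofReal (c * Real.log n) < (sigma n : ℝ≥0∞)}.ncard

/-- `β(c)`, the exponent of the set of the exceptions: the upper limit of `log (exceptions c x) / log x` as
`x → ∞`. -/
noncomputable def beta (c : ℝ) : ℝ := limsup (fun x : ℝ => Real.log (exceptions c x) / Real.log x) atTop

open Pool.Agent.K4H97.CE in
theorem exceptions_eq {c : ℝ} (hc : 0 ≤ c) (x : ℝ) : exceptions c x = cnt c x := by
  unfold exceptions cnt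
  congr 1
  ext n
  have key : 2 ≤ n → (ENNReal.ofReal (c * Real.log n) < (sigma n : ℝ≥0∞) ↔ ¬ StopsBy (c * Real.log n) n) := by
    intro h1
    rw [← sigma_le_iff (mul_nonneg hc (Real.log_natCast_nonneg n)), not_le]
    rfl
  constructor
  · rintro ⟨h1, h2, h3⟩
    exact ⟨by omega, h2, (key h1).1 h3⟩
  · rintro ⟨h1, h2, h3⟩
    have h4 : 2 ≤ n := by
      by_contra hcon
      obtain rfl : n = 1 := by omega
      apply h3
      exact ⟨0, by simp, rfl⟩
    exact ⟨h4, h2, (key h4).2 h3⟩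

theorem beta_eq {c : ℝ} (hc : 0 ≤ c) : beta c = Pool.Agent.K4H97.CE.beta c := by
  unfold beta Pool.Agent.K4H97.CE.beta
  simp only [exceptions_eq hc]

theorem L_eq : L = Pool.Agent.K4H97.CE.L := rfl

/-- The constant `μ = 2 / log (4/3)` of the normal order `μ log n` of `σ_∞(n)`. -/
noncomputable def μ : ℝ := 2 / Real.log (4 / 3)

/-- THE EXTREMAL CONSTANT AND THE EXPONENT OF THE EXCEPTIONAL SET. Let `L` be the upper limit of
`σ_∞(n) / log n`, `β(c)` the exponent of the set of the exceptions of `σ_∞(n) ≤ c log n` and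
`μ = 2 / log (4/3)`. There is a function `κ` such that

* `κ(c) > 0` for all `c > μ`, and `κ(c) ≥ c / 22` for all `c ≥ 10^6`;
* `κ(c) / L ≤ 1 - β(c) ≤ (c - μ) / (L - μ)` for `μ < c < L` (with `1 / ∞ = 0`);
* `β(c) = 0` for `c > L`.

Hence equivalent are: (1) there is a constant `c > 0` with `σ_∞(n) ≤ c log n` for all `n ≥ 2` (Q1);
(2) `L < ∞`; (3) `β(c) < 1` for some `c > 0`; (4) `β(c) < 1` for every `c > μ`. -/
theorem result :
    (∃ κ : ℝ → ℝ, (∀ c : ℝ, μ < c → 0 < κ c) ∧
      (∀ c : ℝ, 10 ^ 6 ≤ c → c / 22 ≤ κ c) ∧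
      ∀ c : ℝ, μ < c → ENNReal.ofReal c < L →
        κ c * (L⁻¹).toReal ≤ 1 - beta c ∧ 1 - beta c ≤ (c - μ) * ((L - ENNReal.ofReal μ)⁻¹).toReal) ∧
    (∀ c : ℝ, L < ENNReal.ofReal c → beta c = 0) ∧
    [∃ c : ℝ, 0 < c ∧ ∀ n : ℕ, 2 ≤ n → (sigma n : ℝ≥0∞) ≤ ENNReal.ofReal (c * Real.log n),
      L < ⊤,
      ∃ c : ℝ, 0 < c ∧ beta c < 1,
      ∀ c : ℝ, μ < c → beta c < 1].TFAE := by
  unfold μ
  have hμ := Pool.Agent.K4H97.CE.mu_pos
  have hL1 : ENNReal.ofReal 41.677 < L := Pool.Agent.K4H97.CE.L_gt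
  obtain ⟨κ, hκ1, hκ2, hκ3⟩ := Pool.Agent.K4H86.Fix.exists_kappa_num
  have hmain : ∀ c : ℝ, 2 / Real.log (4 / 3) < c → ENNReal.ofReal c < L →
      κ c * (L⁻¹).toReal ≤ 1 - beta c ∧ 1 - beta c ≤ c * (L⁻¹).toReal := by
    intro c hc hcL
    rw [beta_eq (hμ.trans hc).le]
    exact hκ3 c hc hcL
  have hanti : ∀ c c' : ℝ, 0 ≤ c → c ≤ c' → beta c' ≤ beta c := by
    intro c c' hc hcc
    rw [beta_eq hc, beta_eq (hc.trans hcc)]
    exact Pool.Agent.K4H97.CE.beta_anti hcc
  have h43 : 2 / Real.log (4 / 3) < 41 := by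
    have h1 : (1 / 4 : ℝ) ≤ Real.log (4 / 3) := by
      have h2 := Real.one_sub_inv_le_log_of_pos (show (0 : ℝ) < 4 / 3 by norm_num)
      norm_num at h2 ⊢
      exact h2
    rw [div_lt_iff₀ (by linarith)]
    linarith
  have h41 : ENNReal.ofReal 41 < L := by
    refine lt_trans ?_ hL1
    rw [ENNReal.ofReal_lt_ofReal_iff (by norm_num)]
    norm_num
  have hsharp : ∀ c : ℝ, 2 / Real.log (4 / 3) < c → ENNReal.ofReal c < L →
      κ c * (L⁻¹).toReal ≤ 1 - beta c ∧
        1 - beta c ≤ (c - 2 / Real.log (4 / 3)) * ((L - ENNReal.ofReal (2 / Real.log (4 / 3)))⁻¹).toReal := by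
    intro c hc hcL
    refine ⟨(hmain c hc hcL).1, ?_⟩
    rw [beta_eq (hμ.trans hc).le, L_eq]
    exact Pool.Agent.K4H97.CE.exp_sharp hc
  refine ⟨⟨κ, hκ1, fun c hc => hκ2 c (by norm_num at hc ⊢; exact hc), hsharp⟩, ?_, ?_⟩
  · intro c hc
    have hc0 : 0 ≤ c := by
      by_contra hcon
      push Not at hcon
      rw [ENNReal.ofReal_of_nonpos hcon.le] at hc
      exact absurd hc (not_lt.2 zero_le)
    rw [beta_eq hc0]
    exact Pool.Agent.K4H97.CE.beta_eq_zero hc0 hc
  · tfae_have 1 → 2 := by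
      rintro ⟨c, hc0, hc⟩
      have h1 : L ≤ ENNReal.ofReal c := by
        apply limsup_le_of_le (by isBoundedDefault)
        filter_upwards [eventually_ge_atTop 2] with n hn
        have h2 := (Pool.Agent.K4H97.CE.sigma_le_iff (mul_nonneg hc0.le (Real.log_natCast_nonneg n)) n).1 (hc n hn)
        exact (Pool.Agent.K4H97.CE.ratio_le_iff hn hc0.le).2 h2
      exact lt_of_le_of_lt h1 ENNReal.ofReal_lt_top
    tfae_have 2 → 1 := by
      intro hL
      have h1 : L < ENNReal.ofReal (L.toReal + 1) := by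
        nth_rewrite 1 [← ENNReal.ofReal_toReal hL.ne]
        rw [ENNReal.ofReal_lt_ofReal_iff (by positivity)]
        linarith
      have hl0 : 0 ≤ L.toReal := ENNReal.toReal_nonneg
      obtain ⟨M, hM, h⟩ := Pool.Agent.K4H97.CE.all_of_lt (by positivity) h1
      have hl2 : 0 < Real.log 2 := Real.log_pos (by norm_num)
      refine ⟨L.toReal + 1 + M / Real.log 2, by positivity, fun n hn => ?_⟩
      have hlog : Real.log 2 ≤ Real.log n := Real.log_le_log (by norm_num) (by exact_mod_cast hn)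
      refine (Pool.Agent.K4H97.CE.sigma_le_iff (by positivity) n).2 ((h n (by omega)).mono ?_)
      have h2 : M ≤ M / Real.log 2 * Real.log n := by
        rw [div_mul_eq_mul_div, le_div_iff₀ hl2]
        exact mul_le_mul_of_nonneg_left hlog hM
      rw [add_mul (L.toReal + 1)]
      linarith
    tfae_have 2 → 4 := by
      intro hL c hc
      have hi : 0 < (L⁻¹).toReal := by
        apply ENNReal.toReal_pos (ENNReal.inv_ne_zero.2 hL.ne)
        apply ENNReal.inv_ne_top.2
        intro h0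
        rw [h0] at hL1
        exact absurd hL1 (not_lt.2 zero_le)
      have h2 : beta (min c 41) < 1 := by
        have h3 := (hmain (min c 41) (lt_min hc h43) (lt_of_le_of_lt (ENNReal.ofReal_le_ofReal (min_le_right _ _)) h41)).1
        have h4 := mul_pos (hκ1 (min c 41) (lt_min hc h43)) hi
        linarith
      exact lt_of_le_of_lt (hanti _ _ (le_min (hμ.trans hc).le (by norm_num)) (min_le_left _ _)) h2
    tfae_have 4 → 3 := fun h => ⟨41, by norm_num, h 41 h43⟩
    tfae_have 3 → 2 := by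
      rintro ⟨c, hc0, hc⟩
      by_contra hL
      have hL' : L = ⊤ := not_lt_top_iff.1 hL
      have h1 := (hmain (max c 41) (lt_of_lt_of_le h43 (le_max_right _ _)) (by
        rw [hL']; exact ENNReal.ofReal_lt_top)).2
      rw [hL', ENNReal.inv_top, ENNReal.toReal_zero, mul_zero] at h1
      have h2 := hanti c (max c 41) hc0.le (le_max_left _ _)
      linarith
    tfae_finish

end Pool.Agent.Results.MP_a1568a_nt.ExceptionalExponent
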