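import Pool.Agent.K4H97.CE.Sharp2

set_option autoImplicit false

/-!
# Sets of integers which are sufficient for the logarithmic bound

If the logarithmic bound for the total stopping time fails, then it fails for whole windows of
consecutive integers of any fixed length, and the windows which consist of exceptions are very numerous:
more than `x^(1 - η)` up to `x`, for every `x` in long ranges `[y, y^K]`. So Q1 holds as soon as, at one
scale `x` in each range `[y, y^K]`, all but at most `x^(1 - η)` of the windows of length `R` contain ONE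
integer with `σ_∞(n) ≤ c log n`. Quantitatively, the upper limits of `σ_∞(n) / log n` along a set `S` and
along all integers are compared; they are equal for sets with bounded gaps, and more generally if `S` misses
at most `x^ε` of the windows of some length `R(ε)`, for every `ε > 0`.
-/

namespace Pool.Agent.Results.MP_a1568a_nt.SufficientWindows

open Filter Topology
open scoped ENNReal

/-- The `3x+1` function. -/
def T (n : ℕ) : ℕ := if n % 2 = 0 then n / 2 else (3 * n + 1) / 2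

open Classical in
/-- The total stopping time `σ_∞(n)`: the least `k ≥ 0` with `T^(k)(n) = 1`, and `∞` if there is
none. -/
noncomputable def sigma (n : ℕ) : ℕ∞ :=
  if h : ∃ k : ℕ, T^[k] n = 1 then ((Nat.find h : ℕ) : ℕ∞) else ⊤

/-- `L S`, the upper limit of `σ_∞(n) / log n` as `n → ∞` in the set `S`, with `0 ≤ L S ≤ ∞`. -/
noncomputable def L (S : Set ℕ) : ℝ≥0∞ :=
  limsup (fun n : ℕ => (sigma n : ℝ≥0∞) / ENNReal.ofReal (Real.log n)) (atTop ⊓ 𝓟 S)

/-- The number of the integers `1 ≤ m ≤ x` for which none of `m, m + 1, ..., m + R` belongs to `S`. -/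
noncomputable def missed (S : Set ℕ) (R : ℕ) (x : ℝ) : ℕ :=
  {m : ℕ | 1 ≤ m ∧ (m : ℝ) ≤ x ∧ ∀ h ≤ R, m + h ∉ S}.ncard

/-- For every large `y` there is `x` in `[y, y^K]` such that at most `x^(1 - η)` of the windows
`m, m + 1, ..., m + R` with `m ≤ x` contain no element of `S`. -/
def Meets (S : Set ℕ) (R : ℕ) (η K : ℝ) : Prop :=
  ∀ᶠ y : ℝ in atTop, ∃ x : ℝ, y ≤ x ∧ x ≤ y ^ K ∧ (missed S R x : ℝ) ≤ x ^ (1 - η)

theorem L_univ : L Set.univ = Pool.Agent.K4H97.CE.L := by
  unfold L
  rw [principal_univ, inf_top_eq]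
  rfl

/-- The constant `μ = 2 / log (4/3)` of the normal order `μ log n` of `σ_∞(n)`. -/
noncomputable def μ : ℝ := 2 / Real.log (4 / 3)

/-- SUFFICIENT SETS FOR THE LOGARITHMIC BOUND. Let `L S` be the upper limit of `σ_∞(n) / log n` along `S`,
and let `μ = 2 / log (4/3)`.

(1) Let `0 < η ≤ 1` and `K ≥ 1`. If for every large `y` there is `x` in `[y, y^K]` such that all but at
most `x^(1 - η)` of the windows `m, ..., m + R` with `m ≤ x` contain an element of `S`, then
`η L ℕ + (K - η) μ ≤ K L S`, i.e. `L ℕ - μ ≤ (K / η) (L S - μ)`. In particular, a logarithmic bound on `S`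
implies the logarithmic bound for all integers.

(2) If for every `ε > 0` there is `R` such that for all large `x` all but at most `x^ε` of the windows
`m, ..., m + R` with `m ≤ x` contain an element of `S`, then `L S = L ℕ`.

(3) There is a constant `c > 0` with `σ_∞(n) ≤ c log n` for all `n ≥ 2` (Q1) if and only if for some
`c > 0`, `R`, `0 < η ≤ 1` and `K ≥ 1` the hypothesis of (1) holds for the set of the `n` with
`σ_∞(n) ≤ c log n`. -/
theorem result :
    (∀ (S : Set ℕ) (R : ℕ) (η K : ℝ), 0 < η → η ≤ 1 → 1 ≤ K → Meets S R η K →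
      ENNReal.ofReal η * L Set.univ + ENNReal.ofReal ((K - η) * μ) ≤ ENNReal.ofReal K * L S) ∧
    (∀ S : Set ℕ, (∀ ε : ℝ, 0 < ε → ∃ R : ℕ, ∀ᶠ x : ℝ in atTop, (missed S R x : ℝ) ≤ x ^ ε) →
      L S = L Set.univ) ∧
    ((∃ c : ℝ, 0 < c ∧ ∀ n : ℕ, 2 ≤ n → (sigma n : ℝ≥0∞) ≤ ENNReal.ofReal (c * Real.log n)) ↔
      ∃ (c : ℝ) (R : ℕ) (η K : ℝ), 0 < c ∧ 0 < η ∧ η ≤ 1 ∧ 1 ≤ K ∧
        Meets {n : ℕ | (sigma n : ℝ≥0∞) ≤ ENNReal.ofReal (c * Real.log n)} R η K) := by
  have h0 : ∀ (S : Set ℕ) (R : ℕ) (η K : ℝ), 0 < η → η ≤ 1 → 1 ≤ K → Meets S R η K →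
      ENNReal.ofReal η * L Set.univ + ENNReal.ofReal ((K - η) * μ) ≤ ENNReal.ofReal K * L S := by
    intro S R η K hη hη1 hK h
    rw [L_univ]
    exact Pool.Agent.K4H97.CE.suff_sharp hη hη1 hK h
  have h1 : ∀ (S : Set ℕ) (R : ℕ) (η K : ℝ), 0 < η → η ≤ 1 → 1 ≤ K → Meets S R η K →
      ENNReal.ofReal η * L Set.univ ≤ ENNReal.ofReal K * L S := fun S R η K hη hη1 hK h =>
    le_trans le_self_add (h0 S R η K hη hη1 hK h)
  refine ⟨h0, fun S h => ?_, ?_, ?_⟩
  · rw [L_univ]
    exact Pool.Agent.K4H97.CE.full_of_missed h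
  · rintro ⟨c, hc, h⟩
    refine ⟨c, 1, 1, 1, hc, one_pos, le_rfl, le_rfl, ?_⟩
    filter_upwards with y
    refine ⟨y, le_rfl, by rw [Real.rpow_one], ?_⟩
    have e : {m : ℕ | 1 ≤ m ∧ (m : ℝ) ≤ y ∧
        ∀ i ≤ 1, m + i ∉ {n : ℕ | (sigma n : ℝ≥0∞) ≤ ENNReal.ofReal (c * Real.log n)}} = ∅ := by
      ext m
      simp only [Set.mem_ofPred_eq, Set.mem_empty_iff_false, iff_false]
      rintro ⟨g1, -, g3⟩
      exact g3 1 le_rfl (h (m + 1) (by omega))
    unfold missed
    rw [e, Set.ncard_empty, Nat.cast_zero, sub_self, Real.rpow_zero]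
    norm_num
  · rintro ⟨c, R, η, K, hc, hη, hη1, hK, h⟩
    have h2 := h1 _ R η K hη hη1 hK h
    have h3 : L {n : ℕ | (sigma n : ℝ≥0∞) ≤ ENNReal.ofReal (c * Real.log n)} ≤ ENNReal.ofReal c := by
      apply limsup_le_of_le (by isBoundedDefault)
      rw [eventually_inf_principal]
      filter_upwards [eventually_ge_atTop 2] with n hn hnS
      have h4 := (Pool.Agent.K4H97.CE.sigma_le_iff (mul_nonneg hc.le (Real.log_natCast_nonneg n)) n).1 hnS
      exact (Pool.Agent.K4H97.CE.ratio_le_iff hn hc.le).2 h4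
    have h4 : L Set.univ < ⊤ := by
      by_contra hcon
      rw [not_lt_top_iff] at hcon
      rw [hcon, ENNReal.mul_top (by rw [Ne, ENNReal.ofReal_eq_zero]; linarith)] at h2
      have h5 : ENNReal.ofReal K * L {n : ℕ | (sigma n : ℝ≥0∞) ≤ ENNReal.ofReal (c * Real.log n)} < ⊤ :=
        ENNReal.mul_lt_top ENNReal.ofReal_lt_top (lt_of_le_of_lt h3 ENNReal.ofReal_lt_top)
      exact absurd (lt_of_le_of_lt h2 h5) (lt_irrefl _)
    rw [L_univ] at h4
    set l : ℝ := Pool.Agent.K4H97.CE.L.toReal with hl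
    have h5 : Pool.Agent.K4H97.CE.L < ENNReal.ofReal (l + 1) := by
      nth_rewrite 1 [← ENNReal.ofReal_toReal h4.ne]
      rw [ENNReal.ofReal_lt_ofReal_iff (by positivity)]
      linarith
    have hl0 : 0 ≤ l := ENNReal.toReal_nonneg
    obtain ⟨M, hM, h⟩ := Pool.Agent.K4H97.CE.all_of_lt (by positivity) h5
    have hl2 : 0 < Real.log 2 := Real.log_pos (by norm_num)
    refine ⟨l + 1 + M / Real.log 2, by positivity, fun n hn => ?_⟩
    have hlog : Real.log 2 ≤ Real.log n := Real.log_le_log (by norm_num) (by exact_mod_cast hn)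
    refine (Pool.Agent.K4H97.CE.sigma_le_iff (by positivity) n).2 ((h n (by omega)).mono ?_)
    have h2 : M ≤ M / Real.log 2 * Real.log n := by
      rw [div_mul_eq_mul_div, le_div_iff₀ hl2]
      exact mul_le_mul_of_nonneg_left hlog hM
    rw [add_mul (l + 1)]
    linarith

end Pool.Agent.Results.MP_a1568a_nt.SufficientWindows
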