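import Pool.Agent.K4H97.CE.Typ

set_option autoImplicit false

/-!
# Typical starts are sufficient for the logarithmic bound

The logarithmic bound `σ_∞(n) ≤ c log n` holds for all `n` as soon as it holds for the integers outside a
set which has density at most `δ / log y` in every short interval `[y, y + y^(1 - η)]`. In particular it is
sufficient to have it for those `n` whose parities during the first `ε log₂ n` steps are typical, in any
reasonable sense, for one `ε < 1`: for instance, for which the number of the odd terms among the first `j`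
terms is `j / 2 + O(√(t log t))` for all `j ≤ t = ⌊ε log₂ n⌋`.
-/

namespace Pool.Agent.Results.MP_a1568a_nt.TypicalStarts

open Filter Topology
open scoped ENNReal

/-- The `3x+1` function. -/
def T (n : ℕ) : ℕ := if n % 2 = 0 then n / 2 else (3 * n + 1) / 2

open Classical in
/-- The total stopping time `σ_∞(n)`: the least `k ≥ 0` with `T^(k)(n) = 1`, and `∞` if there is
none. -/
noncomputable def sigma (n : ℕ) : ℕ∞ :=
  if h : ∃ k : ℕ, T^[k] n = 1 then ((Nat.find h : ℕ) : ℕ∞) else ⊤

/-- `L S`, the upper limit of `σ_∞(n) / log n` as `n → ∞` in the set `S`, with `0 ≤ L S ≤ ∞`. -/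
noncomputable def L (S : Set ℕ) : ℝ≥0∞ :=
  limsup (fun n : ℕ => (sigma n : ℝ≥0∞) / ENNReal.ofReal (Real.log n)) (atTop ⊓ 𝓟 S)

/-- The logarithmic bound on `S`: there is `c > 0` with `σ_∞(n) ≤ c log n` for all `n ≥ 2` in `S`. Question
Q1 asks for `LogBound Set.univ`. -/
def LogBound (S : Set ℕ) : Prop :=
  ∃ c : ℝ, 0 < c ∧ ∀ n ∈ S, 2 ≤ n → (sigma n : ℝ≥0∞) ≤ ENNReal.ofReal (c * Real.log n)

/-- The number of the integers of `[y, y + h]` which do not belong to `S`. -/
noncomputable def outside (S : Set ℕ) (y h : ℝ) : ℕ :=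
  {n : ℕ | y ≤ (n : ℝ) ∧ (n : ℝ) ≤ y + h ∧ n ∉ S}.ncard

/-- `len ε n = ⌊ε log₂ n⌋`. -/
noncomputable def len (ε : ℝ) (n : ℕ) : ℕ := ⌊ε * Real.logb 2 n⌋₊

/-- The parity word of length `t` of `n`: the parities of `n, T n, ..., T^(t-1) n` (`true` for odd). -/
def word (t n : ℕ) : Fin t → Bool := fun j => decide (T^[(j : ℕ)] n % 2 = 1)

/-- The number of the odd terms among `n, T n, ..., T^(j-1) n`. -/
def odds (j n : ℕ) : ℕ := ((Finset.range j).filter fun i => T^[i] n % 2 = 1).card

/-- `n` is typical for `t = ⌊ε log₂ n⌋` steps: for every `j ≤ t`, the number of the odd terms among the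
first `j` terms differs from `j / 2` by at most `A √(t log t)`. -/
def Typical (ε A : ℝ) (n : ℕ) : Prop :=
  ∀ j ≤ len ε n, |(odds j n : ℝ) - j / 2| ≤ A * √(len ε n * Real.log (len ε n))

theorem L_univ : L Set.univ = Pool.Agent.K4H97.CE.L := by
  unfold L
  rw [principal_univ, inf_top_eq]
  rfl

theorem L_le_of {S : Set ℕ} {c : ℝ} (hc : 0 < c)
    (h : ∀ n ∈ S, 2 ≤ n → (sigma n : ℝ≥0∞) ≤ ENNReal.ofReal (c * Real.log n)) : L S ≤ ENNReal.ofReal c := by
  apply limsup_le_of_le (by isBoundedDefault)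
  rw [eventually_inf_principal]
  filter_upwards [eventually_ge_atTop 2] with n hn hnS
  have h4 := (Pool.Agent.K4H97.CE.sigma_le_iff (mul_nonneg hc.le (Real.log_natCast_nonneg n)) n).1 (h n hnS hn)
  exact (Pool.Agent.K4H97.CE.ratio_le_iff hn hc.le).2 h4

/-- from the comparison of the upper limits to the equivalence -/
theorem logBound_iff {S : Set ℕ} {η : ℝ} (hη : 0 < η) (h : ENNReal.ofReal η * L Set.univ ≤ L S) :
    LogBound Set.univ ↔ LogBound S := by
  constructor
  · rintro ⟨c, hc, h1⟩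
    exact ⟨c, hc, fun n _ hn => h1 n (Set.mem_univ n) hn⟩
  · rintro ⟨c, hc, h1⟩
    have h3 := L_le_of hc h1
    have h4 : L Set.univ < ⊤ := by
      by_contra hcon
      rw [not_lt_top_iff] at hcon
      rw [hcon, ENNReal.mul_top (by rw [Ne, ENNReal.ofReal_eq_zero]; linarith)] at h
      exact absurd (lt_of_le_of_lt (h.trans h3) ENNReal.ofReal_lt_top) (lt_irrefl _)
    rw [L_univ] at h4
    set l : ℝ := Pool.Agent.K4H97.CE.L.toReal with hl
    have h5 : Pool.Agent.K4H97.CE.L < ENNReal.ofReal (l + 1) := by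
      nth_rewrite 1 [← ENNReal.ofReal_toReal h4.ne]
      rw [ENNReal.ofReal_lt_ofReal_iff (by positivity)]
      linarith
    have hl0 : 0 ≤ l := ENNReal.toReal_nonneg
    obtain ⟨M, hM, h⟩ := Pool.Agent.K4H97.CE.all_of_lt (by positivity) h5
    have hl2 : 0 < Real.log 2 := Real.log_pos (by norm_num)
    refine ⟨l + 1 + M / Real.log 2, by positivity, fun n _ hn => ?_⟩
    have hlog : Real.log 2 ≤ Real.log n := Real.log_le_log (by norm_num) (by exact_mod_cast hn)
    refine (Pool.Agent.K4H97.CE.sigma_le_iff (by positivity) n).2 ((h n (by omega)).mono ?_)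
    have h2 : M ≤ M / Real.log 2 * Real.log n := by
      rw [div_mul_eq_mul_div, le_div_iff₀ hl2]
      exact mul_le_mul_of_nonneg_left hlog hM
    rw [add_mul (l + 1)]
    linarith

/-- TYPICAL STARTS ARE SUFFICIENT FOR THE LOGARITHMIC BOUND. Let `L S` be the upper limit of
`σ_∞(n) / log n` along `S`. There is an absolute constant `δ > 0` with (1) and (2).

(1) Let `0 < η < 1`. If, for all large `y`, at most `δ y^(1 - η) / log y` integers of the interval
`[y, y + y^(1 - η)]` are outside `S`, then `η L ℕ ≤ L S`, and Q1 holds if and only if the logarithmic bound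
holds on `S`.

(2) Let `0 < ε < 1`, and let `B t`, for large `t`, be a set of at most `δ ε 2^t / t` words of length `t`.
Let `S` be the set of the `n` whose parity word of length `t = ⌊ε log₂ n⌋` is not in `B t`. Then
`(1 - ε) L ℕ ≤ L S`, and Q1 holds if and only if the logarithmic bound holds on `S`.

(3) Let `0 < ε < 1 < A`. Then Q1 holds if and only if the logarithmic bound holds for all `n` such that
for every `j ≤ t = ⌊ε log₂ n⌋` the number of the odd terms among the first `j` terms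
`n, T n, ..., T^(j-1) n` differs from `j / 2` by at most `A √(t log t)`; and `(1 - ε) L ℕ ≤ L S` for the
set `S` of these `n`. -/
theorem result :
    (∃ δ : ℝ, 0 < δ ∧
      (∀ (S : Set ℕ) (η : ℝ), 0 < η → η < 1 →
        (∀ᶠ y : ℝ in atTop, (outside S y (y ^ (1 - η)) : ℝ) ≤ δ * y ^ (1 - η) / Real.log y) →
        ENNReal.ofReal η * L Set.univ ≤ L S ∧ (LogBound Set.univ ↔ LogBound S)) ∧
      (∀ (ε : ℝ) (B : (t : ℕ) → Finset (Fin t → Bool)), 0 < ε → ε < 1 →
        (∀ᶠ t : ℕ in atTop, ((B t).card : ℝ) ≤ δ * ε * 2 ^ t / t) →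
        ENNReal.ofReal (1 - ε) * L Set.univ ≤ L {n : ℕ | word (len ε n) n ∉ B (len ε n)} ∧
          (LogBound Set.univ ↔ LogBound {n : ℕ | word (len ε n) n ∉ B (len ε n)}))) ∧
    (∀ ε A : ℝ, 0 < ε → ε < 1 → 1 < A →
      ENNReal.ofReal (1 - ε) * L Set.univ ≤ L {n : ℕ | Typical ε A n} ∧
        (LogBound Set.univ ↔ LogBound {n : ℕ | Typical ε A n})) := by
  obtain ⟨δ, hδ, h⟩ := Pool.Agent.K4H97.CE.short
  have h1 : ∀ (S : Set ℕ) (η : ℝ), 0 < η → η < 1 →
        (∀ᶠ y : ℝ in atTop, (outside S y (y ^ (1 - η)) : ℝ) ≤ δ * y ^ (1 - η) / Real.log y) →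
        ENNReal.ofReal η * L Set.univ ≤ L S ∧ (LogBound Set.univ ↔ LogBound S) := by
    intro S η hη hη1 hm
    have h2 : ENNReal.ofReal η * L Set.univ ≤ L S := by
      rw [L_univ]
      exact h S η hη hη1 hm
    exact ⟨h2, logBound_iff hη h2⟩
  have h2 : ∀ (ε : ℝ) (B : (t : ℕ) → Finset (Fin t → Bool)), 0 < ε → ε < 1 →
        (∀ᶠ t : ℕ in atTop, ((B t).card : ℝ) ≤ δ / 9 * ε * 2 ^ t / t) →
        ENNReal.ofReal (1 - ε) * L Set.univ ≤ L {n : ℕ | word (len ε n) n ∉ B (len ε n)} ∧
          (LogBound Set.univ ↔ LogBound {n : ℕ | word (len ε n) n ∉ B (len ε n)}) := by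
    intro ε B hε hε1 hB
    exact h1 _ (1 - ε) (by linarith) (by linarith) (Pool.Agent.K4H97.CE.words_short hε hε1 hδ B hB)
  refine ⟨⟨δ / 9, by positivity, fun S η hη hη1 hm => h1 S η hη hη1 ?_, h2⟩, fun ε A hε hε1 hA => ?_⟩
  · filter_upwards [hm, eventually_gt_atTop 1] with y hy hy1
    refine hy.trans ?_
    have hlog : 0 < Real.log y := Real.log_pos hy1
    apply div_le_div_of_nonneg_right _ hlog.le
    apply mul_le_mul_of_nonneg_right _ (Real.rpow_nonneg (by linarith) _)
    linarith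
  · have h3 := h2 ε (Pool.Agent.K4H97.CE.atyp A) hε hε1
      (Pool.Agent.K4H97.CE.atyp_card hA (by positivity))
    have e : {n : ℕ | Typical ε A n} =
        {n : ℕ | word (len ε n) n ∉ Pool.Agent.K4H97.CE.atyp A (len ε n)} := by
      ext n
      exact Pool.Agent.K4H97.CE.typical_iff ε A n
    rw [e]
    exact h3

end Pool.Agent.Results.MP_a1568a_nt.TypicalStarts
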